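import Pool.Agent.H95.ILV.Targets

/-!
# Row KA: elementary bounds
-/

set_option autoImplicit false

open MeasureTheory AddCircle Filter Topology Pool.Agent.H87.Synth Pool.Agent.H23.Synth
  Pool.Agent.H95.ILV

namespace Pool.Agent.H10.ILV

theorem pf_KA : T_KA := by
  intro i
  have hp : 0 < (i + 1) ^ 10 := by positivity
  refine ⟨?_, ?_, fun j hj => ?_⟩
  · exact (Nat.lt_mul_div_succ (2 ^ (i + 23)) hp).le
  · unfold mm
    have h1 : 2 ^ (i + 23) / (i + 1) ^ 10 ≤ 2 ^ (i + 23) := Nat.div_le_self _ _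
    have h2 : 1 ≤ 2 ^ (i + 23) := Nat.one_le_two_pow
    have h3 : 2 ^ (i + 24) = 2 * 2 ^ (i + 23) := by rw [pow_succ, mul_comm]
    omega
  · have hN : 1 ≤ Nn i := Nat.one_le_two_pow
    have hH : Hh i = 256 * Nn i ^ 3 := by
      unfold Hh Nn
      rw [← pow_mul, show (256 : ℕ) = 2 ^ 8 by norm_num, ← pow_add]
      congr 1
      ring
    rw [hH]
    unfold bb QN
    generalize Nn i = N at hj hN
    have h1 : (j + 1) ^ 2 ≤ (N + 1) ^ 2 := Nat.pow_le_pow_left (by omega) 2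
    have h2 : (4 * N ^ 2 + 1) * (j + 1) ≤ (4 * N ^ 2 + 1) * (N + 1) :=
      Nat.mul_le_mul_left _ (by omega)
    have h3 : N ^ 2 ≤ N ^ 3 := Nat.pow_le_pow_right hN (by norm_num)
    have h4 : N ≤ N ^ 3 := by
      calc N = N ^ 1 := (pow_one N).symm
        _ ≤ N ^ 3 := Nat.pow_le_pow_right hN (by norm_num)
    have h5 : 1 ≤ N ^ 3 := Nat.one_le_pow _ _ hN
    have e1 : (N + 1) ^ 2 = N ^ 2 + 2 * N + 1 := by ring
    have e2 : (4 * N ^ 2 + 1) * (N + 1) = 4 * N ^ 3 + 4 * N ^ 2 + N + 1 := by ring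
    omega

end Pool.Agent.H10.ILV
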