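import Pool.Agent.H95.ILV.Targets

/-!
# Row PKN: the mean kernel
-/

set_option autoImplicit false

open MeasureTheory AddCircle Filter Topology Pool.Agent.H87.Synth Pool.Agent.H23.Synth
  Pool.Agent.H95.ILV

namespace Pool.Agent.H10.ILV

/-! ### sums over scales -/

lemma pkn_scale (l : ℕ) (hl : 1 ≤ l) (T : ℕ) :
    ∑ t ∈ Finset.range T, (if l < 2 ^ t then (1 : ℝ) / 2 ^ t else 0) ≤ 2 / l := by
  have hlr : (0 : ℝ) < l := by exact_mod_cast hl
  have key : (2 ^ T ≤ l → ∑ t ∈ Finset.range T, (if l < 2 ^ t then (1 : ℝ) / 2 ^ t else 0) = 0) ∧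
      (l < 2 ^ T → ∑ t ∈ Finset.range T, (if l < 2 ^ t then (1 : ℝ) / 2 ^ t else 0) +
        2 * (1 / 2 ^ T) ≤ 2 / l) := by
    induction T with
    | zero =>
      refine ⟨fun _ => by simp, fun h => ?_⟩
      rw [pow_zero] at h
      omega
    | succ T ih =>
      have hpow : 2 ^ (T + 1) = 2 * 2 ^ T := by rw [pow_succ, mul_comm]
      have hpowr : (2 : ℝ) ^ (T + 1) = 2 * 2 ^ T := by rw [pow_succ, mul_comm]
      rw [Finset.sum_range_succ]
      constructor
      · intro h
        have h1 : 2 ^ T ≤ l := by omega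
        rw [ih.1 h1, if_neg (not_lt.2 h1), add_zero]
      · intro h
        by_cases h1 : l < 2 ^ T
        · have h2 := ih.2 h1
          rw [if_pos h1, hpowr]
          have e : (2 : ℝ) * (1 / (2 * 2 ^ T)) = 1 / 2 ^ T := by field_simp
          rw [e]
          linarith
        · rw [ih.1 (not_lt.1 h1), if_neg h1, zero_add, zero_add]
          have h2 : (l : ℝ) ≤ 2 ^ (T + 1) := by exact_mod_cast h.le
          rw [mul_one_div]
          exact div_le_div_of_nonneg_left (by norm_num) hlr h2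
  by_cases h : l < 2 ^ T
  · have h1 := key.2 h
    have h2 : (0 : ℝ) ≤ 2 * (1 / 2 ^ T) := by positivity
    linarith
  · rw [key.1 (not_lt.1 h)]
    positivity

/-! ### the exponential sums -/

/-- The indices of the frequencies of `G_t`. -/
noncomputable def pS (M t : ℕ) (lam : ℕ → ℕ) : Finset (ℕ × Bool) :=
  ((Finset.range M).filter (fun j => 2 ^ t ≤ lam j)) ×ˢ (Finset.univ : Finset Bool)

/-- The frequencies. -/
def pN (lam : ℕ → ℕ) (a : ℕ × Bool) : ℤ := if a.2 then lam a.1 else 1 - lam a.1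

/-- The coefficients. -/
def pG (a : ℕ × Bool) : ℂ := if a.2 then 1 else -1

lemma pG_norm (a : ℕ × Bool) : ‖pG a‖ ≤ 1 := by
  unfold pG
  split_ifs <;> simp

lemma pkn_ES (M t : ℕ) (lam : ℕ → ℕ) (x : Circ) :
    ES (pS M t lam) (pN lam) pG x = ∑ j ∈ (Finset.range M).filter (fun j => 2 ^ t ≤ lam j),
      ((fourier (lam j : ℤ) x : ℂ) - fourier (1 - (lam j : ℤ)) x) := by
  unfold ES pS
  rw [Finset.sum_product]
  refine Finset.sum_congr rfl fun j _ => ?_
  rw [Fintype.sum_bool]
  simp [pN, pG]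
  ring

lemma pkn_pairs (M t : ℕ) (lam : ℕ → ℕ) :
    (∑ a ∈ pS M t lam, ∑ b ∈ pS M t lam,
      if |pN lam a - pN lam b| < ((2 ^ t : ℕ) : ℤ) then (1 : ℝ) else 0) =
      2 * prs M t lam := by
  have e : ∀ f : ℕ × Bool → ℝ, ∑ a ∈ pS M t lam, f a =
      ∑ j ∈ (Finset.range M).filter (fun j => 2 ^ t ≤ lam j), (f (j, true) + f (j, false)) := by
    intro f
    unfold pS
    rw [Finset.sum_product]
    refine Finset.sum_congr rfl fun j _ => ?_
    rw [Fintype.sum_bool]
  have h2 : (1 : ℤ) ≤ 2 ^ t := one_le_pow₀ (by norm_num)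
  rw [e]
  unfold prs
  rw [Finset.mul_sum, Finset.sum_filter]
  refine Finset.sum_congr rfl fun i _ => ?_
  by_cases hi : 2 ^ t ≤ lam i
  · rw [if_pos hi, e, e, ← Finset.sum_add_distrib, Finset.mul_sum, Finset.sum_filter]
    refine Finset.sum_congr rfl fun j _ => ?_
    have hi' : (2 : ℤ) ^ t ≤ lam i := by exact_mod_cast hi
    by_cases hj : 2 ^ t ≤ lam j
    · have hj' : (2 : ℤ) ^ t ≤ lam j := by exact_mod_cast hj
      rw [if_pos hj]
      have n1 : ¬ |pN lam (i, true) - pN lam (j, false)| < ((2 ^ t : ℕ) : ℤ) := by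
        simp only [pN, if_true, Bool.false_eq_true, if_false]
        push_cast
        rw [not_lt]
        refine le_trans ?_ (le_abs_self _)
        linarith
      have n2 : ¬ |pN lam (i, false) - pN lam (j, true)| < ((2 ^ t : ℕ) : ℤ) := by
        simp only [pN, if_true, Bool.false_eq_true, if_false]
        push_cast
        rw [not_lt]
        refine le_trans ?_ (neg_le_abs _)
        linarith
      have n3 : (|pN lam (i, true) - pN lam (j, true)| < ((2 ^ t : ℕ) : ℤ)) ↔
          |(lam i : ℤ) - lam j| < 2 ^ t := by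
        simp only [pN, if_true]
        push_cast
        exact Iff.rfl
      have n4 : (|pN lam (i, false) - pN lam (j, false)| < ((2 ^ t : ℕ) : ℤ)) ↔
          |(lam i : ℤ) - lam j| < 2 ^ t := by
        simp only [pN, Bool.false_eq_true, if_false]
        push_cast
        have : (1 - (lam i : ℤ)) - (1 - (lam j : ℤ)) = -((lam i : ℤ) - lam j) := by ring
        rw [this, abs_neg]
      rw [if_neg n1, if_neg n2]
      by_cases hd : |(lam i : ℤ) - lam j| < 2 ^ t
      · rw [if_pos (n3.2 hd), if_pos (n4.2 hd), if_pos ⟨hi, hj, hd⟩]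
        norm_num
      · rw [if_neg (fun h => hd (n3.1 h)), if_neg (fun h => hd (n4.1 h)),
          if_neg (fun h => hd h.2.2)]
        norm_num
    · rw [if_neg hj, if_neg (fun h => hj h.2.1), mul_zero]
  · rw [if_neg hi]
    symm
    rw [mul_eq_zero]
    right
    exact Finset.sum_eq_zero fun j _ => if_neg fun h => hi h.1

lemma pkn_ES_cont {ι : Type} (s : Finset ι) (ν : ι → ℤ) (g : ι → ℂ) : Continuous (ES s ν g) := by
  unfold ES
  fun_prop

lemma pkn_rho_cont : Continuous rho := by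
  unfold rho
  fun_prop

/-! ### the function -/

/-- The sum of the Dirichlet kernels. -/
noncomputable def pD (M : ℕ) (lam : ℕ → ℕ) : C(Circ, ℂ) :=
  ∑ j ∈ Finset.range M, ∑ k ∈ Finset.Ico (-(lam j : ℤ) + 1 - 0) (lam j : ℤ), fourier k

/-- One kernel. -/
noncomputable def pE (l : ℕ) (x : Circ) : ℂ :=
  ∑ k ∈ Finset.Ico (-(l : ℤ) + 1 - 0) (l : ℤ), (fourier k x : ℂ)

lemma pkn_D_apply (M : ℕ) (lam : ℕ → ℕ) (x : Circ) :
    pD M lam x = ∑ j ∈ Finset.range M, pE (lam j) x := by
  unfold pD pE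
  rw [ContinuousMap.sum_apply]
  refine Finset.sum_congr rfl fun j _ => ?_
  rw [ContinuousMap.sum_apply]

lemma pkn_norm (M : ℕ) (lam : ℕ → ℕ) :
    ‖∑ j ∈ Finset.range M, DK (lam j) 0‖ = ∫ x, ‖pD M lam x‖ ∂(haarAddCircle : Measure Circ) := by
  have e : ∑ j ∈ Finset.range M, DK (lam j) 0 =
      ContinuousMap.toLp (E := ℂ) 1 (haarAddCircle : Measure Circ) ℂ (pD M lam) := by
    unfold pD DK ex
    rw [map_sum]
    refine Finset.sum_congr rfl fun j _ => ?_
    rw [map_sum]
  rw [e, Pool.Agent.H87.Synth.norm_eq]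
  refine integral_congr_ae ?_
  filter_upwards [ContinuousMap.coeFn_toLp (p := 1) (𝕜 := ℂ) (haarAddCircle : Measure Circ)
    (pD M lam)] with x hx
  rw [hx]

lemma pkn_E_eq (l : ℕ) (hl : 1 ≤ l) (x : Circ) :
    pE l x * ((fourier 1 x : ℂ) - 1) = fourier (l : ℤ) x - fourier (1 - (l : ℤ)) x := by
  have h := sum_fourier_mul (-(l : ℤ) + 1 - 0) (2 * l - 1) x
  have e : -(l : ℤ) + 1 - 0 + ((2 * l - 1 : ℕ) : ℤ) = l := by
    push_cast [Nat.cast_sub (show 1 ≤ 2 * l by omega)]
    ring
  rw [e] at h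
  have e2 : -(l : ℤ) + 1 - 0 = 1 - l := by ring
  unfold pE
  rw [h, e2]

lemma pkn_E_norm (l : ℕ) (hl : 1 ≤ l) (x : Circ) : ‖pE l x‖ ≤ 2 * l := by
  have h := norm_sum_fourier_le (-(l : ℤ) + 1 - 0) (2 * l - 1) x
  have e : -(l : ℤ) + 1 - 0 + ((2 * l - 1 : ℕ) : ℤ) = l := by
    push_cast [Nat.cast_sub (show 1 ≤ 2 * l by omega)]
    ring
  rw [e] at h
  refine h.trans ?_
  have : 2 * l - 1 ≤ 2 * l := Nat.sub_le _ _
  calc ((2 * l - 1 : ℕ) : ℝ) ≤ ((2 * l : ℕ) : ℝ) := by exact_mod_cast this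
    _ = 2 * l := by push_cast; ring

lemma pkn_point (M t : ℕ) (lam : ℕ → ℕ) (hl : ∀ j < M, 1 ≤ lam j) (x : Circ) (hx : 0 < rho x) :
    ‖pD M lam x‖ ≤ (∑ j ∈ Finset.range M, if lam j < 2 ^ t then 2 * (lam j : ℝ) else 0) +
      ‖ES (pS M t lam) (pN lam) pG x‖ / rho x := by
  rw [pkn_D_apply, ← Finset.sum_filter_add_sum_filter_not _ (fun j => 2 ^ t ≤ lam j)]
  have h1 : ‖∑ j ∈ (Finset.range M).filter (fun j => 2 ^ t ≤ lam j), pE (lam j) x‖ =
      ‖ES (pS M t lam) (pN lam) pG x‖ / rho x := by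
    rw [eq_div_iff hx.ne', rho, ← norm_mul, Finset.sum_mul, pkn_ES]
    congr 1
    refine Finset.sum_congr rfl fun j hj => ?_
    rw [Finset.mem_filter, Finset.mem_range] at hj
    exact pkn_E_eq (lam j) (hl j hj.1) x
  have h2 : ‖∑ j ∈ (Finset.range M).filter (fun j => ¬ 2 ^ t ≤ lam j), pE (lam j) x‖ ≤
      ∑ j ∈ Finset.range M, if lam j < 2 ^ t then 2 * (lam j : ℝ) else 0 := by
    rw [← Finset.sum_filter]
    simp only [not_le]
    refine (norm_sum_le _ _).trans (Finset.sum_le_sum fun j hj => ?_)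
    rw [Finset.mem_filter, Finset.mem_range] at hj
    exact pkn_E_norm (lam j) (hl j hj.1) x
  refine (norm_add_le _ _).trans ?_
  rw [h1]
  linarith

lemma pkn_all (M : ℕ) (lam : ℕ → ℕ) (hl : ∀ j < M, 1 ≤ lam j) (x : Circ) :
    ‖pD M lam x‖ ≤ ∑ j ∈ Finset.range M, 2 * (lam j : ℝ) := by
  rw [pkn_D_apply]
  exact (norm_sum_le _ _).trans (Finset.sum_le_sum fun j hj =>
    pkn_E_norm (lam j) (hl j (Finset.mem_range.1 hj)) x)

/-! ### integrals -/

lemma pkn_cs (f : Circ → ℝ) (hf : Continuous f) :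
    ∫ x, f x ∂(haarAddCircle : Measure Circ) ≤
      √(∫ x, f x ^ 2 ∂(haarAddCircle : Measure Circ)) := by
  have hi : Integrable f (haarAddCircle : Measure Circ) :=
    hf.integrable_of_hasCompactSupport (HasCompactSupport.of_compactSpace f)
  have hi2 : Integrable (fun x => f x ^ 2) (haarAddCircle : Measure Circ) :=
    (hf.pow 2).integrable_of_hasCompactSupport (HasCompactSupport.of_compactSpace _)
  set c : ℝ := ∫ x, f x ∂(haarAddCircle : Measure Circ) with hc
  refine Real.le_sqrt_of_sq_le ?_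
  have h1 : 0 ≤ ∫ x, (f x - c) ^ 2 ∂(haarAddCircle : Measure Circ) :=
    integral_nonneg fun x => sq_nonneg _
  have h2 : ∫ x, (f x - c) ^ 2 ∂(haarAddCircle : Measure Circ) =
      (∫ x, f x ^ 2 ∂(haarAddCircle : Measure Circ)) - c ^ 2 := by
    have e : (fun x => (f x - c) ^ 2) = fun x => f x ^ 2 - (2 * c * f x - c ^ 2) := by
      funext x
      ring
    have hi3 : Integrable (fun x => 2 * c * f x - c ^ 2) (haarAddCircle : Measure Circ) :=
      (hi.const_mul _).sub (integrable_const _)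
    rw [e, integral_sub hi2 hi3,
      integral_sub (hi.const_mul _) (integrable_const _), integral_const_mul, ← hc]
    simp
    ring
  linarith

lemma pkn_split (f : Circ → ℝ) (hf : Continuous f) (T : ℕ) :
    ∫ x, f x ∂(haarAddCircle : Measure Circ) =
      (∫ x in {x | 1 < rho x}, f x ∂(haarAddCircle : Measure Circ)) +
      (∑ t ∈ Finset.range T, ∫ x in Xs t, f x ∂(haarAddCircle : Measure Circ)) +
      ∫ x in {x | rho x ≤ 1 / 2 ^ T}, f x ∂(haarAddCircle : Measure Circ) := by
  have hi : Integrable f (haarAddCircle : Measure Circ) :=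
    hf.integrable_of_hasCompactSupport (HasCompactSupport.of_compactSpace f)
  have hr : Measurable rho := pkn_rho_cont.measurable
  induction T with
  | zero =>
    have e : {x : Circ | rho x ≤ 1 / 2 ^ 0} = {x | 1 < rho x}ᶜ := by
      ext x
      simp
    rw [e, Finset.range_zero, Finset.sum_empty, add_zero,
      integral_add_compl (measurableSet_lt measurable_const hr) hi]
  | succ T ih =>
    rw [ih, Finset.sum_range_succ]
    have e : {x : Circ | rho x ≤ 1 / 2 ^ T} = Xs T ∪ {x | rho x ≤ 1 / 2 ^ (T + 1)} := by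
      ext x
      simp only [Set.mem_ofPred_eq, Set.mem_union, Xs]
      constructor
      · intro h
        by_cases h1 : rho x ≤ 1 / 2 ^ (T + 1)
        · exact Or.inr h1
        · exact Or.inl ⟨not_le.1 h1, h⟩
      · rintro (h | h)
        · exact h.2
        · refine h.trans ?_
          exact one_div_le_one_div_of_le (by positivity) (pow_le_pow_right₀ (by norm_num)
            (Nat.le_succ T))
    rw [e, setIntegral_union _ (measurableSet_le hr measurable_const) hi.integrableOn
      hi.integrableOn]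
    · ring
    · rw [Set.disjoint_left]
      intro x hx hx'
      exact absurd hx.1 (not_lt.2 hx')

lemma pkn_L2 (h1 : T_L2B) (M t T : ℕ) (lam : ℕ → ℕ) (K : ℝ) (hK : ∀ t ≤ T, prs M t lam ≤ K)
    (ht : t ≤ T) : ∫ x, FW (2 ^ t) x * ‖ES (pS M t lam) (pN lam) pG x‖ ^ 2
      ∂(haarAddCircle : Measure Circ) ≤ 2 * K := by
  refine (h1 (ℕ × Bool) (pS M t lam) (pN lam) pG (2 ^ t) Nat.one_le_two_pow
    (fun a _ => pG_norm a)).trans ?_
  rw [pkn_pairs]
  linarith [hK t ht]

lemma pkn_const (s : Set Circ) (c : ℝ) (hc : 0 ≤ c) (t : ℕ) (h3 : T_MSR)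
    (hs : s ⊆ {x | rho x ≤ 1 / 2 ^ t}) :
    ∫ _ in s, c ∂(haarAddCircle : Measure Circ) ≤ c * (4 / 2 ^ t) := by
  rw [setIntegral_const, smul_eq_mul, mul_comm]
  refine mul_le_mul_of_nonneg_left ?_ hc
  refine le_trans ?_ (h3 t)
  exact measureReal_mono hs (measure_ne_top _ _)

lemma pkn_shell (h1 : T_L2B) (h2 : T_SHL) (h3 : T_MSR) (M t T : ℕ) (lam : ℕ → ℕ) (K : ℝ)
    (hl : ∀ j < M, 1 ≤ lam j) (hK : ∀ t ≤ T, prs M t lam ≤ K) (ht : t ≤ T) :
    ∫ x in Xs t, ‖pD M lam x‖ ∂(haarAddCircle : Measure Circ) ≤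
      (∑ j ∈ Finset.range M, if lam j < 2 ^ t then 2 * (lam j : ℝ) else 0) * (4 / 2 ^ t) +
        8 * √(2 * K) := by
  have hr : Measurable rho := pkn_rho_cont.measurable
  have hXs : MeasurableSet (Xs t) :=
    (measurableSet_lt measurable_const hr).inter (measurableSet_le hr measurable_const)
  set c : ℝ := ∑ j ∈ Finset.range M, if lam j < 2 ^ t then 2 * (lam j : ℝ) else 0 with hc
  have hc0 : 0 ≤ c := Finset.sum_nonneg fun j _ => by split_ifs <;> positivity
  have hES := pkn_ES_cont (pS M t lam) (pN lam) pG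
  have hi1 : Integrable (fun x => ‖pD M lam x‖) (haarAddCircle : Measure Circ) :=
    (pD M lam).continuous.norm.integrable_of_hasCompactSupport
      (HasCompactSupport.of_compactSpace _)
  have hi2 : Integrable (fun x => ‖ES (pS M t lam) (pN lam) pG x‖)
      (haarAddCircle : Measure Circ) :=
    hES.norm.integrable_of_hasCompactSupport (HasCompactSupport.of_compactSpace _)
  have hi3 : IntegrableOn (fun x => ‖ES (pS M t lam) (pN lam) pG x‖ / rho x) (Xs t)
      (haarAddCircle : Measure Circ) := by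
    refine Integrable.mono' ((hi2.const_mul (2 ^ (t + 1))).integrableOn)
      (hES.norm.measurable.div hr).aestronglyMeasurable ?_
    refine (ae_restrict_iff' hXs).2 (Eventually.of_forall fun x hx => ?_)
    have hpos : 0 < rho x := lt_trans (by positivity) hx.1
    rw [Real.norm_of_nonneg (by positivity), div_le_iff₀ hpos]
    have h4 := hx.1
    rw [div_lt_iff₀ (by positivity)] at h4
    have h5 := norm_nonneg (ES (pS M t lam) (pN lam) pG x)
    nlinarith
  have hle : ∫ x in Xs t, ‖pD M lam x‖ ∂(haarAddCircle : Measure Circ) ≤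
      ∫ x in Xs t, (c + ‖ES (pS M t lam) (pN lam) pG x‖ / rho x)
        ∂(haarAddCircle : Measure Circ) := by
    refine setIntegral_mono_on hi1.integrableOn ((integrable_const c).integrableOn.add hi3) hXs
      fun x hx => ?_
    exact pkn_point M t lam hl x (lt_trans (by positivity) hx.1)
  refine hle.trans ?_
  rw [integral_add (integrable_const c).integrableOn hi3]
  refine add_le_add (pkn_const (Xs t) c hc0 t h3 fun x hx => hx.2) ?_
  refine (h2 (ℕ × Bool) (pS M t lam) (pN lam) pG t).trans ?_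
  exact mul_le_mul_of_nonneg_left (Real.sqrt_le_sqrt (pkn_L2 h1 M t T lam K hK ht))
    (by norm_num)

/-- PKN: the mean kernel. -/
theorem pf_PKN (h1 : T_L2B) (h2 : T_SHL) (h3 : T_MSR) : T_PKN := by
  intro M T lam K hlam hK
  have hl : ∀ j < M, 1 ≤ lam j := fun j hj => (hlam j hj).1
  have hr : Measurable rho := pkn_rho_cont.measurable
  rw [pkn_norm, pkn_split (fun x => ‖pD M lam x‖) (pD M lam).continuous.norm T]
  have hi1 : Integrable (fun x => ‖pD M lam x‖) (haarAddCircle : Measure Circ) :=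
    (pD M lam).continuous.norm.integrable_of_hasCompactSupport
      (HasCompactSupport.of_compactSpace _)
  -- the far part
  have A : ∫ x in {x | 1 < rho x}, ‖pD M lam x‖ ∂(haarAddCircle : Measure Circ) ≤
      √(2 * K) := by
    have hES := pkn_ES_cont (pS M 0 lam) (pN lam) pG
    have hi2 : Integrable (fun x => ‖ES (pS M 0 lam) (pN lam) pG x‖)
        (haarAddCircle : Measure Circ) :=
      hES.norm.integrable_of_hasCompactSupport (HasCompactSupport.of_compactSpace _)
    have hm : MeasurableSet {x : Circ | 1 < rho x} := measurableSet_lt measurable_const hr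
    have a1 : ∫ x in {x | 1 < rho x}, ‖pD M lam x‖ ∂(haarAddCircle : Measure Circ) ≤
        ∫ x in {x | 1 < rho x}, ‖ES (pS M 0 lam) (pN lam) pG x‖
          ∂(haarAddCircle : Measure Circ) := by
      refine setIntegral_mono_on hi1.integrableOn hi2.integrableOn hm fun x hx => ?_
      have hx1 : 1 < rho x := hx
      have hp := pkn_point M 0 lam hl x (by linarith)
      have h0 : (∑ j ∈ Finset.range M, if lam j < 2 ^ 0 then 2 * (lam j : ℝ) else 0) = 0 := by
        refine Finset.sum_eq_zero fun j hj => if_neg ?_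
        have := hl j (Finset.mem_range.1 hj)
        rw [pow_zero]
        omega
      rw [h0, zero_add] at hp
      exact hp.trans (div_le_self (norm_nonneg _) hx1.le)
    have a2 : ∫ x in {x | 1 < rho x}, ‖ES (pS M 0 lam) (pN lam) pG x‖
        ∂(haarAddCircle : Measure Circ) ≤
        ∫ x, ‖ES (pS M 0 lam) (pN lam) pG x‖ ∂(haarAddCircle : Measure Circ) :=
      setIntegral_le_integral hi2 (Eventually.of_forall fun x => norm_nonneg _)
    have a3 := pkn_cs (fun x => ‖ES (pS M 0 lam) (pN lam) pG x‖) hES.norm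
    have a4 := pkn_L2 h1 M 0 T lam K hK (Nat.zero_le T)
    have a5 : ∫ x, FW (2 ^ 0) x * ‖ES (pS M 0 lam) (pN lam) pG x‖ ^ 2
        ∂(haarAddCircle : Measure Circ) =
        ∫ x, ‖ES (pS M 0 lam) (pN lam) pG x‖ ^ 2 ∂(haarAddCircle : Measure Circ) := by
      refine integral_congr_ae (Eventually.of_forall fun x => ?_)
      simp [FW]
    rw [a5] at a4
    exact a1.trans (a2.trans (a3.trans (Real.sqrt_le_sqrt a4)))
  -- the shells
  have B : ∑ t ∈ Finset.range T, ∫ x in Xs t, ‖pD M lam x‖ ∂(haarAddCircle : Measure Circ) ≤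
      16 * M + 8 * T * √(2 * K) := by
    refine (Finset.sum_le_sum fun t ht => pkn_shell h1 h2 h3 M t T lam K hl hK
      (Finset.mem_range.1 ht).le).trans ?_
    rw [Finset.sum_add_distrib, Finset.sum_const, Finset.card_range, nsmul_eq_mul]
    have b1 : ∑ t ∈ Finset.range T, (∑ j ∈ Finset.range M,
        if lam j < 2 ^ t then 2 * (lam j : ℝ) else 0) * (4 / 2 ^ t) =
        ∑ j ∈ Finset.range M, 8 * (lam j : ℝ) * ∑ t ∈ Finset.range T,
          (if lam j < 2 ^ t then (1 : ℝ) / 2 ^ t else 0) := by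
      simp only [Finset.sum_mul, Finset.mul_sum]
      rw [Finset.sum_comm]
      refine Finset.sum_congr rfl fun j _ => Finset.sum_congr rfl fun t _ => ?_
      split_ifs
      · ring
      · ring
    have b2 : ∀ j ∈ Finset.range M, 8 * (lam j : ℝ) * ∑ t ∈ Finset.range T,
        (if lam j < 2 ^ t then (1 : ℝ) / 2 ^ t else 0) ≤ 16 := by
      intro j hj
      have hlj := hl j (Finset.mem_range.1 hj)
      have hpos : (0 : ℝ) < lam j := by exact_mod_cast hlj
      refine (mul_le_mul_of_nonneg_left (pkn_scale (lam j) hlj T) (by positivity)).trans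
        (le_of_eq ?_)
      field_simp
      norm_num
    rw [b1]
    have b3 := Finset.sum_le_sum b2
    rw [Finset.sum_const, Finset.card_range, nsmul_eq_mul] at b3
    linarith
  -- the centre
  have C : ∫ x in {x | rho x ≤ 1 / 2 ^ T}, ‖pD M lam x‖ ∂(haarAddCircle : Measure Circ) ≤
      8 * M := by
    set c : ℝ := ∑ j ∈ Finset.range M, 2 * (lam j : ℝ) with hc
    have hc0 : 0 ≤ c := Finset.sum_nonneg fun j _ => by positivity
    have hm : MeasurableSet {x : Circ | rho x ≤ 1 / 2 ^ T} := measurableSet_le hr measurable_const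
    have c1 : ∫ x in {x | rho x ≤ 1 / 2 ^ T}, ‖pD M lam x‖ ∂(haarAddCircle : Measure Circ) ≤
        ∫ _ in {x | rho x ≤ 1 / 2 ^ T}, c ∂(haarAddCircle : Measure Circ) :=
      setIntegral_mono_on hi1.integrableOn (integrable_const c).integrableOn hm
        fun x _ => pkn_all M lam hl x
    refine (c1.trans (pkn_const _ c hc0 T h3 (Set.Subset.refl _))).trans ?_
    have c2 : c ≤ ∑ j ∈ Finset.range M, 2 * (2 : ℝ) ^ T := by
      refine Finset.sum_le_sum fun j hj => ?_
      have : (lam j : ℝ) ≤ 2 ^ T := by exact_mod_cast (hlam j (Finset.mem_range.1 hj)).2.le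
      linarith
    rw [Finset.sum_const, Finset.card_range, nsmul_eq_mul] at c2
    have hT : (0 : ℝ) < 2 ^ T := by positivity
    calc c * (4 / 2 ^ T) ≤ (M * (2 * 2 ^ T)) * (4 / 2 ^ T) :=
          mul_le_mul_of_nonneg_right c2 (by positivity)
      _ = 8 * M := by field_simp; ring
  have hs : 0 ≤ √(2 * K) := Real.sqrt_nonneg _
  linarith

end Pool.Agent.H10.ILV
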